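import Pool.Agent.Helper15_SIU.Stmts

/-!
# MP_021b97_an, module TRB: order zero bound for `tri`
-/

set_option autoImplicit false

open MeasureTheory Filter Topology

namespace Pool.Agent.SIU.H49

/-- the Kähler form of the example is continuous and basic -/
theorem kahler_basic (hKFM : KfmStmt) :
    ContinuousOn X2.kahler X2.U ∧ X2.BasicOn X2.U X2.kahler := by
  obtain ⟨h1, -, h3, -⟩ := hKFM
  have hL := h3 kL (by simp)
  have hH := h3 kH (by simp)
  have hY := h3 kY (by simp)
  constructor
  · have h : ContinuousOn (fun z => kL z + kH z + kY z) X2.U :=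
      (hL.2.continuousOn.add hH.2.continuousOn).add hY.2.continuousOn
    exact h.congr h1
  · refine ⟨fun z hz c hc v => ?_, fun z hz v i hv => ?_⟩
    · rw [h1 z hz, h1 _ ((act_mem_U hc z).mpr hz)]
      show kL _ _ + kH _ _ + kY _ _ = kL _ _ + kH _ _ + kY _ _
      rw [hL.1.1 z hz c hc v, hH.1.1 z hz c hc v, hY.1.1 z hz c hc v]
    · rw [h1 z hz]
      show kL _ _ + kH _ _ + kY _ _ = 0
      rw [hL.1.2 z hz v i hv, hH.1.2 z hz v i hv, hY.1.2 z hz v i hv]
      norm_num

/-- almost every point of the chart is in `U2'` -/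
theorem ae_sig_mem : ∀ᵐ x : Fin 4 → ℂ, sig x ∈ U2' := by
  have h : volume {x : Fin 4 → ℂ | x 1 = 0} = 0 := by
    rw [volume_pi]
    exact Measure.pi_hyperplane _ _ _
  rw [ae_iff]
  refine measure_mono_null ?_ h
  intro x hx
  simp only [Set.mem_ofPred_eq, sig_mem_U2'] at hx ⊢
  push Not at hx
  exact hx.1

/-- `w1` is compatible with subtraction -/
theorem w1_sub (hWON : WonStmt) {N k : ℕ} (c : (Fin N → ℂ) →L[ℝ] ℝ) (a a' : Alt N k) :
    w1 c (a - a') = w1 c a - w1 c a' := by
  have h := (hWON N k).2.1 c (a - a') a'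
  rw [sub_add_cancel] at h
  rw [h]
  abel

theorem trb (_hWDG : WdgStmt) (hWON : WonStmt) (hLIN : LinStmt) (hORD : OrdStmt)
    (hMBD : MbdStmt) (hKFM : KfmStmt) : TrbStmt := by
  intro f g hf hg
  obtain ⟨C, hC, hord⟩ := hORD f g hf hg
  refine ⟨4 * C, by positivity, ?_⟩
  intro Kp Km M hKp hKm hpp hpm hMp hMm N hN hKN a η _ haN hη b
  obtain ⟨hkc, hkb⟩ := kahler_basic hKFM
  have hIp : Integrable (chi (lamF b Kp X2.kahler)) :=
    ((hLIN b Kp hKp.1.continuousOn hKp.2.1).1 X2.kahler hkc hkb).2.2.2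
  have hIm : Integrable (chi (lamF b Km X2.kahler)) :=
    ((hLIN b Km hKm.1.continuousOn hKm.2.1).1 X2.kahler hkc hkb).2.2.2
  obtain ⟨hmp, hnp⟩ := hMBD Kp hKp hpp b
  obtain ⟨hmm, hnm⟩ := hMBD Km hKm hpm b
  have hpt : ∀ x : Fin 4 → ℂ, sig x ∈ U2' →
      ‖chi (triF b (fun z => Kp z - Km z) a f g) x‖ ≤
        η * C * (chi (lamF b Kp X2.kahler) x + chi (lamF b Km X2.kahler) x) := by
    intro x hx
    have hp0 := hnp x hx
    have hm0 := hnm x hx
    by_cases hxN : sig x ∈ N
    · -- points of `N`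
      have hLN : LL b (sig x) ∈ N ∩ X2.U := by
        refine ⟨?_, (LL_mem b hx).1⟩
        cases b
        · exact hxN
        · exact hN _ ⟨hxN, hx⟩
      have ha := haN _ hLN
      have e1 : chi (triF b (fun z => Kp z - Km z) a f g) x = a (LL b (sig x)) *
          (chi (triF b Kp (fun _ => 1) f g) x - chi (triF b Km (fun _ => 1) f g) x) := by
        unfold chi triF
        simp only [one_smul, w1_sub hWON]
        rfl
      rw [e1, norm_mul, Real.norm_eq_abs, Real.norm_eq_abs]
      have b1 := hord b Kp x hpp hx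
      have b2 := hord b Km x hpm hx
      have b3 : |chi (triF b Kp (fun _ => 1) f g) x - chi (triF b Km (fun _ => 1) f g) x| ≤
          C * (chi (lamF b Kp X2.kahler) x + chi (lamF b Km X2.kahler) x) := by
        calc |chi (triF b Kp (fun _ => 1) f g) x - chi (triF b Km (fun _ => 1) f g) x|
            ≤ |chi (triF b Kp (fun _ => 1) f g) x| + |chi (triF b Km (fun _ => 1) f g) x| :=
              abs_sub _ _
          _ ≤ _ := by linarith
      calc |a (LL b (sig x))| *
            |chi (triF b Kp (fun _ => 1) f g) x - chi (triF b Km (fun _ => 1) f g) x|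
          ≤ η * (C * (chi (lamF b Kp X2.kahler) x + chi (lamF b Km X2.kahler) x)) :=
            mul_le_mul ha b3 (abs_nonneg _) hη
        _ = _ := by ring
    · have e0 : chi (triF b (fun z => Kp z - Km z) a f g) x = 0 := by
        unfold chi triF
        have : (fun z => Kp z - Km z) (sig x) = 0 := by
          show Kp (sig x) - Km (sig x) = 0
          rw [hKN _ hx.1 hxN, sub_self]
        rw [this]
        have hz : ∀ (k : ℕ) (c : E7 →L[ℝ] ℝ), w1 c (0 : Alt 7 k) = 0 := by
          intro k c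
          have := w1_sub hWON c (0 : Alt 7 k) 0
          rw [sub_self, sub_self] at this
          exact this
        rw [hz, hz, smul_zero]
        rfl
      rw [e0, norm_zero]
      positivity
  have hae : ∀ᵐ x : Fin 4 → ℂ, ‖chi (triF b (fun z => Kp z - Km z) a f g) x‖ ≤
      η * C * (chi (lamF b Kp X2.kahler) x + chi (lamF b Km X2.kahler) x) :=
    ae_sig_mem.mono hpt
  have h1 : |tri b (fun z => Kp z - Km z) a f g| ≤
      ∫ x, η * C * (chi (lamF b Kp X2.kahler) x + chi (lamF b Km X2.kahler) x) := by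
    unfold tri
    rw [← Real.norm_eq_abs]
    exact norm_integral_le_of_norm_le ((hIp.add hIm).const_mul (η * C)) hae
  have h2 : ∫ x, η * C * (chi (lamF b Kp X2.kahler) x + chi (lamF b Km X2.kahler) x) =
      η * C * (Lam b Kp X2.kahler + Lam b Km X2.kahler) := by
    rw [integral_const_mul, integral_add hIp hIm]
    rfl
  rw [h2] at h1
  have h3 : Lam b Kp X2.kahler + Lam b Km X2.kahler ≤ 4 * M := by linarith
  have h4 : η * C * (Lam b Kp X2.kahler + Lam b Km X2.kahler) ≤ η * C * (4 * M) :=
    mul_le_mul_of_nonneg_left h3 (mul_nonneg hη hC)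
  calc |tri b (fun z => Kp z - Km z) a f g| ≤ η * C * (4 * M) := h1.trans h4
    _ = 4 * C * M * η := by ring

end Pool.Agent.SIU.H49
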