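import Pool.Agent.Helper15_SIU.Stmts

/-!
# MP_021b97_an, module TSP: the support of `T`, and `T` kills `ω_H`
-/

set_option autoImplicit false

open MeasureTheory Filter Topology

namespace Pool.Agent.SIU.H49

theorem pt_mem_U (ζ : ℂ) (y : ℝ) : pt ζ y ∈ X2.U := by
  rw [mem_U]
  simp [pt]

theorem DD_pt (ζ : ℂ) (y : ℝ) : DD (pt ζ y) = 1 := by simp [DD, pt]

theorem pt_add (ζ : ℂ) (y : ℝ) (c : ℂ) : pt ζ y + c • e0 = pt (ζ + c) y := by
  funext m
  fin_cases m <;> simp [pt, e0]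

theorem contDiff_DD : ContDiff ℝ ((⊤ : ℕ∞) : WithTop ℕ∞) DD := by
  unfold DD
  have h : ∀ j : Fin 7, ContDiff ℝ ((⊤ : ℕ∞) : WithTop ℕ∞) (fun z : E7 => ‖z j‖ ^ 2) := fun j =>
    (contDiff_apply ℝ ℂ j).norm_sq ℝ
  exact (((h 0).add (h 1)).mul ((h 2).add (h 3))).add (h 4)

theorem contDiffAt_logDD {z : E7} (hz : z ∈ X2.U) :
    ContDiffAt ℝ ((⊤ : ℕ∞) : WithTop ℕ∞) (fun w => Real.log (DD w)) z :=
  contDiff_DD.contDiffAt.log (DD_pos hz).ne'

theorem fderiv_logDD_e0 (ζ : ℂ) (y : ℝ) (c : ℂ) :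
    fderiv ℝ (fun w => Real.log (DD w)) (pt ζ y) (c • e0) = 0 := by
  have h := (contDiffAt_logDD (pt_mem_U ζ y)).differentiableAt (by simp)
  rw [← h.lineDeriv_eq_fderiv, lineDeriv]
  have h2 : (fun t : ℝ => Real.log (DD (pt ζ y + t • (c • e0)))) = fun _ => 0 := by
    funext t
    have : pt ζ y + t • (c • e0) = pt (ζ + (t : ℂ) * c) y := by
      rw [← pt_add, mul_smul]
      rfl
    rw [this, DD_pt, Real.log_one]
  rw [h2, deriv_const]

/-- the form `d^c log D` up to sign -/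
noncomputable def thH (w : E7) : Alt 7 1 :=
  (extDeriv (fun w => cst 7 (Real.log (DD w))) w).compContinuousLinearMap (mulC 7 Complex.I)

theorem thH_eq (w : E7) (v : Fin 1 → E7) :
    thH w v = fderiv ℝ (fun w => Real.log (DD w)) w (Complex.I • v 0) := by
  unfold thH cst
  rw [extDeriv_constOfIsEmpty]
  rfl

theorem thH_diff {z : E7} (hz : z ∈ X2.U) : DifferentiableAt ℝ thH z := by
  have h1 : ContDiffAt ℝ 1 (fderiv ℝ (fun w => Real.log (DD w))) z :=
    (contDiffAt_logDD hz).fderiv_right (by norm_cast)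
  have h2 : thH = fun w => (ContinuousAlternatingMap.ofSubsingleton ℝ E7 ℝ (0 : Fin 1)
      ((fderiv ℝ (fun w => Real.log (DD w)) w).comp (mulC 7 Complex.I))) := by
    funext w
    ext v
    rw [thH_eq]
    rfl
  rw [h2]
  have h3 : DifferentiableAt ℝ (fderiv ℝ (fun w => Real.log (DD w))) z :=
    h1.differentiableAt one_ne_zero
  have h4 : DifferentiableAt ℝ (fun w => (fderiv ℝ (fun w => Real.log (DD w)) w).comp
      (mulC 7 Complex.I)) z := h3.clm_comp (differentiableAt_const _)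
  have h5 : Differentiable ℝ (fun c : E7 →L[ℝ] ℝ =>
      ContinuousAlternatingMap.ofSubsingleton ℝ E7 ℝ (0 : Fin 1) c) :=
    (ContinuousAlternatingMap.ofSubsingletonLIE (𝕜 := ℝ) (E := E7) (F := ℝ)
      (0 : Fin 1)).differentiable
  exact (h5 _).comp z h4

theorem kH_pt (ζ : ℂ) (y : ℝ) : kH (pt ζ y) (cvec (fun _ => e0) (2 * 1)) = 0 := by
  have h0 : kH (pt ζ y) = - extDeriv thH (pt ζ y) := rfl
  rw [h0]
  show - (extDeriv thH (pt ζ y) (cvec (fun _ => e0) (2 * 1))) = 0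
  have h1 := extDeriv_apply (thH_diff (pt_mem_U ζ y)) (cvec (fun _ => e0) (2 * 1))
  rw [h1, neg_eq_zero]
  refine Finset.sum_eq_zero fun i _ => ?_
  have hv : ∀ j : Fin (2 * 1), ∃ c : ℂ, cvec (fun _ => e0) (2 * 1) j = c • e0 := by
    intro j
    unfold cvec
    split_ifs
    · exact ⟨1, (one_smul _ _).symm⟩
    · exact ⟨Complex.I, rfl⟩
  obtain ⟨c, hc⟩ := hv i
  obtain ⟨c', hc'⟩ := hv (i.succAbove 0)
  have hd : DifferentiableAt ℝ
      (fun w => thH w (i.removeNth (cvec (fun _ => e0) (2 * 1)))) (pt ζ y) := by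
    have := thH_diff (pt_mem_U ζ y)
    fun_prop
  have h2 : fderiv ℝ (fun w => thH w (i.removeNth (cvec (fun _ => e0) (2 * 1)))) (pt ζ y)
      (c • e0) = 0 := by
    rw [← hd.lineDeriv_eq_fderiv, lineDeriv]
    have h3 : (fun t : ℝ => thH (pt ζ y + t • (c • e0))
        (i.removeNth (cvec (fun _ => e0) (2 * 1)))) = fun _ => 0 := by
      funext t
      have h4 : pt ζ y + t • (c • e0) = pt (ζ + (t : ℂ) * c) y := by
        rw [← pt_add, mul_smul]
        rfl
      rw [h4, thH_eq]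
      have h5 : (i.removeNth (cvec (fun _ => e0) (2 * 1))) 0 = c' • e0 := hc'
      rw [h5, smul_smul]
      exact fderiv_logDD_e0 _ _ _
    rw [h3, deriv_const]
  rw [hc, h2, smul_zero]

theorem isClosed_line {𝕂 : Set ℝ} (hK : IsCompact 𝕂) :
    IsClosed {w : E7 | ∃ y ∈ 𝕂, w 5 = (y : ℂ) * w 6} := by
  have : CompactSpace 𝕂 := isCompact_iff_compactSpace.mp hK
  have h1 : IsClosed {p : 𝕂 × E7 | p.2 5 = ((p.1 : ℝ) : ℂ) * p.2 6} := by
    apply isClosed_eq
    · exact (continuous_apply 5).comp continuous_snd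
    · exact (Complex.continuous_ofReal.comp (continuous_subtype_val.comp continuous_fst)).mul
        ((continuous_apply 6).comp continuous_snd)
  have h2 := isClosedMap_snd_of_compactSpace (X := 𝕂) (Y := E7) _ h1
  convert h2 using 1
  ext w
  constructor
  · rintro ⟨y, hy, hw⟩
    exact ⟨(⟨y, hy⟩, w), hw, rfl⟩
  · rintro ⟨⟨y, w'⟩, hw, rfl⟩
    exact ⟨y, y.2, hw⟩

theorem tsp : TspStmt := by
  intro 𝕂 hK T hT
  constructor
  · intro j z hz
    obtain ⟨hzU, hz⟩ := hz
    have hcl : IsClosed ({w : E7 | BB w = 0} ∩ {w : E7 | ∃ y ∈ 𝕂, w 5 = (y : ℂ) * w 6}) :=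
      (isClosed_eq continuous_BB continuous_const).inter (isClosed_line hK)
    by_cases hS : z ∈ ({w : E7 | BB w = 0} ∩ {w : E7 | ∃ y ∈ 𝕂, w 5 = (y : ℂ) * w 6})
    · obtain ⟨hB, y, hy, h5⟩ := hS
      have hB' : BB z = 0 := hB
      have h6 : z 6 ≠ 0 := by
        intro h6
        rw [h6, mul_zero] at h5
        rcases ((mem_U z).mp hzU).2.2 with h | h
        · exact h h5
        · exact h h6
      refine ⟨hzU, ?_, h6, y, hy, ?_⟩
      · unfold rho
        rw [hB']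
        simp
        positivity
      · have : z 5 / z 6 = y := by rw [h5]; field_simp
        rw [this, sub_self, norm_zero]
        positivity
    · exfalso
      obtain ⟨β, hβ, hne⟩ := hz (X2.U ∩
        ({w : E7 | BB w = 0} ∩ {w : E7 | ∃ y ∈ 𝕂, w 5 = (y : ℂ) * w 6})ᶜ)
        (isOpen_U.inter hcl.isOpen_compl) ⟨hzU, hS⟩ (by
          rintro w ⟨hwU, hw⟩ c hc
          refine ⟨(act_mem_U hc w).mpr hwU, fun h => hw ?_⟩
          obtain ⟨h1, y, hy, h5⟩ := h
          refine ⟨?_, y, hy, ?_⟩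
          · have h1' : BB (X2.act c w) = 0 := h1
            rw [BB_act] at h1'
            have h0 : ‖c 0‖ ≠ 0 := norm_ne_zero_iff.mpr (hc 0)
            have h1'' : ‖c 1‖ ≠ 0 := norm_ne_zero_iff.mpr (hc 1)
            have hne : (‖c 0‖⁻¹) ^ 2 * ‖c 1‖ ^ 2 ≠ 0 := by positivity
            exact (mul_eq_zero.mp h1').resolve_left hne
          · rw [act_eq] at h5
            simp only [Matrix.cons_val] at h5
            have h2 := hc 2
            have h6 : c 2 * w 5 = c 2 * ((y : ℂ) * w 6) := by rw [h5]; ring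
            exact mul_left_cancel₀ h2 h6)
      apply hne
      rw [hT β]
      apply setIntegral_eq_zero_of_forall_eq_zero
      intro y hy
      have h0 : ∀ ζ : ℂ, β.1 (pt ζ y) = 0 := by
        intro ζ
        apply hβ
        intro h
        apply h.2
        refine ⟨?_, y, hy, ?_⟩
        · simp [BB, pt]
        · simp [pt]
      simp only [h0]
      exact integral_zero _ _
  · rintro β ⟨χ, -, hχ⟩
    rw [hT β]
    have h0 : ∀ (y : ℝ) (ζ : ℂ), β.1 (pt ζ y) (cvec (fun _ => e0) (2 * 1)) = 0 := by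
      intro y ζ
      rw [hχ _ (pt_mem_U ζ y)]
      show χ (pt ζ y) • kH (pt ζ y) (cvec (fun _ => e0) (2 * 1)) = 0
      rw [kH_pt, smul_zero]
    simp only [h0]
    simp

end Pool.Agent.SIU.H49
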